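import Mathlib
import Pool.Agent.U830.MA.Stm

namespace Pool.Agent.U981.MA.GL

open Matrix

/-- product of `3 × 3` matrices given by their entries -/
def mk (a b c d e f g h i : ZMod 2) : Matrix (Fin 3) (Fin 3) (ZMod 2) :=
  !![a, b, c; d, e, f; g, h, i]

set_option maxRecDepth 100000 in
theorem fin : ∀ a b c d e f g h i : ZMod 2,
    a * e * i - a * f * h - b * d * i + b * f * g + c * d * h - c * e * g ≠ 0 →
    ∃ n : Fin 7, mk a b c d e f g h i ^ (n.val + 1) = 1 := by
  decide +kernel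

theorem mat (M : Matrix (Fin 3) (Fin 3) (ZMod 2)) (h : M.det ≠ 0) :
    ∃ n, 0 < n ∧ n ≤ 7 ∧ M ^ n = 1 := by
  have hM : M = mk (M 0 0) (M 0 1) (M 0 2) (M 1 0) (M 1 1) (M 1 2) (M 2 0) (M 2 1) (M 2 2) := by
    ext i j
    fin_cases i <;> fin_cases j <;> rfl
  rw [Matrix.det_fin_three] at h
  obtain ⟨n, hn⟩ := fin _ _ _ _ _ _ _ _ _ h
  rw [← hM] at hn
  exact ⟨n.val + 1, by omega, by have := n.isLt; omega, hn⟩

theorem t_GL : Pool.Agent.U830.MA.S_GL := by
  intro V _ hV h2 f hf hadd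
  have : Finite V := Nat.finite_of_card_ne_zero (by omega)
  let _ : Module (ZMod 2) V := AddCommGroup.zmodModule (n := 2) (fun v => by rw [two_nsmul]; exact h2 v)
  have hfr : Module.finrank (ZMod 2) V = 3 := by
    have h1 := Module.natCard_eq_pow_finrank (K := ZMod 2) (V := V)
    rw [hV, Nat.card_zmod] at h1
    exact (Nat.pow_right_injective (le_refl 2) (by norm_num [← h1] : 2 ^ Module.finrank (ZMod 2) V = 2 ^ 3))
  let g : V →ₗ[ZMod 2] V := (AddMonoidHom.mk' f hadd).toZModLinearMap 2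
  have hg : ∀ v, g v = f v := fun v => rfl
  have hgi : Function.Injective g := hf
  let e : V ≃ₗ[ZMod 2] V := LinearEquiv.ofInjectiveEndo g hgi
  let b := Module.finBasisOfFinrankEq (ZMod 2) V hfr
  have hdet : (LinearMap.toMatrix b b g).det ≠ 0 := by
    have := LinearEquiv.isUnit_det e b b
    exact this.ne_zero
  obtain ⟨n, h0, h7, hn⟩ := mat _ hdet
  refine ⟨n, h0, h7, fun v => ?_⟩
  rw [LinearMap.toMatrix_pow] at hn
  have h1 : g ^ n = 1 := by
    apply (LinearMap.toMatrix b b).injective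
    rw [hn, LinearMap.toMatrix_one]
  have h3 : (g ^ n) v = v := by rw [h1]; rfl
  rw [Module.End.pow_apply] at h3
  exact h3

end Pool.Agent.U981.MA.GL
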